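import Pool.Agent.Y920.QB.Lin

set_option autoImplicit false

/-! Job QB-FIN (project QB of helper920): the linear theorem, induction. -/

namespace Pool.Agent.Y908.QBF

open Module Pool.Agent.Y920.QB

section restrict

variable {V K : Type} [AddCommGroup V] [Module (ZMod 2) V] [AddCommGroup K] [Module (ZMod 2) K]
  {U : Submodule (ZMod 2) V}

/-- the smaller space of vectors -/
def U1 (β : U →ₗ[ZMod 2] V →ₗ[ZMod 2] K) (E : Submodule (ZMod 2) K) : Submodule (ZMod 2) V :=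
  (UE β E).map U.subtype

theorem U1_le (β : U →ₗ[ZMod 2] V →ₗ[ZMod 2] K) (E : Submodule (ZMod 2) K) : U1 β E ≤ U := by
  rintro _ ⟨u, _, rfl⟩
  exact u.2

/-- the inclusion -/
def io (β : U →ₗ[ZMod 2] V →ₗ[ZMod 2] K) (E : Submodule (ZMod 2) K) :
    U1 β E →ₗ[ZMod 2] U := Submodule.inclusion (U1_le β E)

theorem io_mem (β : U →ₗ[ZMod 2] V →ₗ[ZMod 2] K) (E : Submodule (ZMod 2) K) (u : U1 β E) :
    ∀ x : V, β (io β E u) x ∈ E := by
  obtain ⟨w, hw, hwu⟩ := u.2
  have e : io β E u = w := by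
    apply Subtype.ext
    exact hwu.symm
  rw [e]
  exact hw

/-- the restricted form -/
def b1 (β : U →ₗ[ZMod 2] V →ₗ[ZMod 2] K) (E : Submodule (ZMod 2) K) :
    U1 β E →ₗ[ZMod 2] V →ₗ[ZMod 2] E :=
  LinearMap.mk₂ (ZMod 2) (fun (u : U1 β E) (x : V) => (⟨β (io β E u) x, io_mem β E u x⟩ : E))
    (by intro a b x; apply Subtype.ext; simp)
    (by intro c a x; apply Subtype.ext; simp)
    (by intro a x y; apply Subtype.ext; simp)
    (by intro c a x; apply Subtype.ext; simp)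

theorem b1_apply (β : U →ₗ[ZMod 2] V →ₗ[ZMod 2] K) (E : Submodule (ZMod 2) K) (u : U1 β E)
    (x : V) : ((b1 β E u x : E) : K) = β (io β E u) x := rfl

theorem io_inj (β : U →ₗ[ZMod 2] V →ₗ[ZMod 2] K) (E : Submodule (ZMod 2) K) :
    Function.Injective (io β E) := Submodule.inclusion_injective _

theorem b1_lin {β : U →ₗ[ZMod 2] V →ₗ[ZMod 2] K} (h : Lin β) (E : Submodule (ZMod 2) K) :
    Lin (b1 β E) where
  symm := by
    intro u v
    apply Subtype.ext
    rw [b1_apply, b1_apply]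
    exact h.symm (io β E u) (io β E v)
  inj := by
    intro u hu
    apply io_inj β E
    rw [map_zero]
    apply h.inj
    intro x
    rw [← b1_apply, hu x]
    rfl
  link := by
    rintro u w α ⟨x, hx⟩ ⟨y, hy⟩
    obtain ⟨z, hz1, hz2⟩ := h.link (io β E u) (io β E w) (α : K)
      ⟨x, by rw [← b1_apply, hx]⟩ ⟨y, by rw [← map_add, ← b1_apply, hy]⟩
    refine ⟨z, Subtype.ext ?_, Subtype.ext ?_⟩
    · rw [b1_apply, hz1]; rfl
    · rw [b1_apply, hz2]

theorem ee_le [Finite V] [Finite K] (β : U →ₗ[ZMod 2] V →ₗ[ZMod 2] K) (E : Submodule (ZMod 2) K)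
    (θ : E) : ee (b1 β E) (Submodule.span (ZMod 2) {θ}) ≤
      ee β (Submodule.span (ZMod 2) {(θ : K)}) := by
  have hmem : ∀ u : UE (b1 β E) (Submodule.span (ZMod 2) {θ}),
      io β E u ∈ UE β (Submodule.span (ZMod 2) {(θ : K)}) := by
    intro u x
    have h1 : b1 β E u x ∈ Submodule.span (ZMod 2) {θ} := u.2 x
    rw [Submodule.mem_span_singleton] at h1 ⊢
    obtain ⟨a, ha⟩ := h1
    refine ⟨a, ?_⟩
    rw [← b1_apply, ← ha]
    rfl
  let f : UE (b1 β E) (Submodule.span (ZMod 2) {θ}) →ₗ[ZMod 2]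
      UE β (Submodule.span (ZMod 2) {(θ : K)}) :=
    LinearMap.codRestrict _ ((io β E).comp (Submodule.subtype _)) hmem
  have hf : Function.Injective f := by
    intro a b hab
    have h1 : io β E a = io β E b := congrArg Subtype.val hab
    exact Subtype.ext (io_inj β E h1)
  exact LinearMap.finrank_le_finrank_of_injective hf

theorem UE_top (β : U →ₗ[ZMod 2] V →ₗ[ZMod 2] K) : UE β ⊤ = ⊤ := by
  rw [eq_top_iff]
  intro u _ x
  exact Submodule.mem_top

end restrict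

theorem num1 (r c : ℕ) : c + (r + 1) * (c + 2 * (3 * (r + 1) + 1) * (r + 1) + 1) ≤
    4 ^ (r + 1) * (c + 15 * (r + 1) ^ 2) := by
  have h1 : r + 2 ≤ 4 ^ (r + 1) := by
    have := Nat.lt_pow_self (n := r + 1) (show 1 < 4 by norm_num)
    omega
  have h2 : (r + 2) * (c + 15 * (r + 1) ^ 2) ≤ 4 ^ (r + 1) * (c + 15 * (r + 1) ^ 2) :=
    Nat.mul_le_mul_right _ h1
  nlinarith

theorem num2 (r r' c c' : ℕ) (hr : r' ≤ r)
    (hc : c' ≤ 2 * c + (3 * (3 * (r + 1) + 1) * (r + 1) + (r + 1) + 2)) :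
    4 ^ r' * (c' + 15 * r' ^ 2) ≤ 4 ^ (r + 1) * (c + 15 * (r + 1) ^ 2) := by
  have h1 : 4 ^ r' ≤ 4 ^ r := Nat.pow_le_pow_right (by norm_num) hr
  have h2 : r' ^ 2 ≤ r ^ 2 := Nat.pow_le_pow_left hr 2
  have h3 : c' + 15 * r' ^ 2 ≤ 4 * (c + 15 * (r + 1) ^ 2) := by nlinarith
  calc 4 ^ r' * (c' + 15 * r' ^ 2) ≤ 4 ^ r * (4 * (c + 15 * (r + 1) ^ 2)) :=
        Nat.mul_le_mul h1 h3
    _ = 4 ^ (r + 1) * (c + 15 * (r + 1) ^ 2) := by rw [pow_succ]; ring

theorem main (hL : P_LINES) : ∀ (r : ℕ) (V K : Type) [AddCommGroup V] [Module (ZMod 2) V]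
    [Finite V] [AddCommGroup K] [Module (ZMod 2) K] [Finite K] (U : Submodule (ZMod 2) V)
    (β : U →ₗ[ZMod 2] V →ₗ[ZMod 2] K) (c : ℕ), finrank (ZMod 2) K = r → Lin β →
    finrank (ZMod 2) V = finrank (ZMod 2) U + c →
    ∃ (n : ℕ) (θ : Fin n → K), n ≤ r ∧ LinearIndependent (ZMod 2) θ ∧
      finrank (ZMod 2) V ≤ ∑ i, ee β (Submodule.span (ZMod 2) {θ i}) +
        4 ^ r * (c + 15 * r ^ 2) := by
  intro r
  induction r using Nat.strong_induction_on with
  | _ r ih =>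
  intro V K _ _ _ _ _ _ U β c hr hlin hc
  rcases Nat.eq_zero_or_pos r with h0 | hpos
  · subst h0
    have hK : Subsingleton K := Module.finrank_zero_iff.mp hr
    have hU : ∀ u : U, u = 0 := fun u => hlin.inj u (fun x => Subsingleton.elim _ _)
    have hU0 : finrank (ZMod 2) U = 0 := by
      have : Subsingleton U := ⟨fun a b => by rw [hU a, hU b]⟩
      exact Module.finrank_zero_of_subsingleton
    refine ⟨0, Fin.elim0, le_rfl, linearIndependent_empty_type, ?_⟩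
    simp
    omega
  obtain ⟨s, rfl⟩ : ∃ s, r = s + 1 := ⟨r - 1, by omega⟩
  obtain ⟨t, ht⟩ : ∃ t, t = 3 * (s + 1) + 1 := ⟨_, rfl⟩
  obtain ⟨T, hT⟩ : ∃ T, T = c + 3 * t * (s + 1) + (s + 1) + 2 := ⟨_, rfl⟩
  by_cases hamp : Amp β T ⊤
  · have hstd : Std β t T := by
      refine ⟨by rw [hr, ht], hamp, ?_⟩
      rw [hr, hc, hT]
      omega
    obtain ⟨θ, hθ, hsum⟩ := hL V K U β t T hlin hstd
    refine ⟨finrank (ZMod 2) K, θ, hr.le, hθ, ?_⟩
    rw [hc]
    rw [hc] at hsum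
    generalize (∑ i, ee β (Submodule.span (ZMod 2) {θ i})) = σ at hsum ⊢
    rw [hr] at hsum
    have h1 := num1 s c
    rw [← ht] at h1
    have h2 : (s + 1) * (finrank (ZMod 2) U + c + 2 * t * (s + 1) + 1) =
        (s + 1) * finrank (ZMod 2) U + (s + 1) * (c + 2 * t * (s + 1) + 1) := by ring
    rw [h2] at hsum
    generalize (s + 1) * (c + 2 * t * (s + 1) + 1) = a at hsum h1
    generalize (s + 1) * finrank (ZMod 2) U = b at hsum
    generalize 4 ^ (s + 1) * (c + 15 * (s + 1) ^ 2) = d at h1 ⊢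
    omega
  · unfold Amp at hamp
    push Not at hamp
    obtain ⟨E, hE, hlt⟩ := hamp
    have htop : ee β ⊤ = finrank (ZMod 2) U := by
      unfold ee
      rw [UE_top]
      exact finrank_top _ _
    rw [htop] at hlt
    have hr' : finrank (ZMod 2) E < s + 1 := by
      rw [← hr]
      exact Submodule.finrank_lt hE.ne
    have hU1 : finrank (ZMod 2) (U1 β E) = ee β E := by
      unfold U1 ee
      exact Submodule.finrank_map_subtype_eq U (UE β E)
    have hle : finrank (ZMod 2) (U1 β E) ≤ finrank (ZMod 2) V := Submodule.finrank_le _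
    obtain ⟨n, θ, hn, hθ, hsum⟩ := ih (finrank (ZMod 2) E) hr' V E (U1 β E) (b1 β E)
      (finrank (ZMod 2) V - finrank (ZMod 2) (U1 β E)) rfl (b1_lin hlin E) (by omega)
    refine ⟨n, fun i => (θ i : K), by omega, ?_, ?_⟩
    · exact hθ.map' E.subtype (Submodule.ker_subtype E)
    · have h1 : ∑ i, ee (b1 β E) (Submodule.span (ZMod 2) {θ i}) ≤
          ∑ i, ee β (Submodule.span (ZMod 2) {(θ i : K)}) :=
        Finset.sum_le_sum fun i _ => ee_le β E (θ i)
      have h2 := num2 s (finrank (ZMod 2) E) c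
        (finrank (ZMod 2) V - finrank (ZMod 2) (U1 β E)) (by omega) (by
          rw [← ht]
          omega)
      beta_reduce
      omega

theorem t_FIN : S_FIN := by
  intro hL V K _ _ _ _ _ _ U β c hlin hc
  exact main hL (finrank (ZMod 2) K) V K U β c rfl hlin hc

end Pool.Agent.Y908.QBF
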