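import Mathlib

set_option autoImplicit false

/-!
Counting lists by cutting them at two places.
-/

namespace Pool.Agent.Y908.QB

theorem card_le_mul {β γ : Type*} [DecidableEq γ] (F : Finset β) (f : β → γ) (X Y : ℝ)
    (hY : 0 ≤ Y) (h1 : ((F.image f).card : ℝ) ≤ X)
    (h2 : ∀ c ∈ F.image f, ((F.filter (fun x => f x = c)).card : ℝ) ≤ Y) :
    (F.card : ℝ) ≤ X * Y := by
  rw [Finset.card_eq_sum_card_image f F]
  push_cast
  calc ∑ c ∈ F.image f, ((F.filter (fun x => f x = c)).card : ℝ)
      ≤ ∑ _c ∈ F.image f, Y := Finset.sum_le_sum h2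
    _ = ((F.image f).card : ℝ) * Y := by rw [Finset.sum_const, nsmul_eq_mul]
    _ ≤ X * Y := mul_le_mul_of_nonneg_right h1 hY

theorem list_eq {α : Type*} (a b : ℕ) (hab : a ≤ b) (l l' : List α)
    (h1 : l.take (a + 1) = l'.take (a + 1))
    (h2 : (l.drop a).take (b - a + 1) = (l'.drop a).take (b - a + 1))
    (h3 : l.drop b = l'.drop b) : l = l' := by
  apply List.ext_getElem?
  intro i
  rcases Nat.lt_or_ge i (a + 1) with h | h
  · have := congrArg (fun t => t[i]?) h1
    simpa [List.getElem?_take, h] using this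
  · rcases Nat.lt_or_ge i b with h' | h'
    · have := congrArg (fun t => t[i - a]?) h2
      have e1 : i - a < b - a + 1 := by omega
      have e2 : a + (i - a) = i := by omega
      simpa [List.getElem?_take, List.getElem?_drop, e1, e2] using this
    · have := congrArg (fun t => t[i - b]?) h3
      have e2 : b + (i - b) = i := by omega
      simpa [List.getElem?_drop, e2] using this

theorem split_core {α : Type*} [DecidableEq α] (m a b : ℕ) (X Y Z : ℝ) (F : Finset (List α))
    (hab : a ≤ b) (hbm : b ≤ m) (hY : 0 ≤ Y) (hZ : 0 ≤ Z)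
    (hF : ∀ l ∈ F, l.length = m + 1)
    (HX : ∀ G : Finset (List α), (∀ l ∈ G, ∃ l' ∈ F, l = l'.take (a + 1)) → (G.card : ℝ) ≤ X)
    (HY : ∀ (u : α) (G : Finset (List α)), (∀ l ∈ G, l.head? = some u ∧
      ∃ l' ∈ F, l = (l'.drop a).take (b - a + 1)) → (G.card : ℝ) ≤ Y)
    (HZ : ∀ (u : α) (G : Finset (List α)), (∀ l ∈ G, l.head? = some u ∧
      ∃ l' ∈ F, l = l'.drop b) → (G.card : ℝ) ≤ Z) :
    (F.card : ℝ) ≤ X * Y * Z := by
  rw [mul_assoc]
  apply card_le_mul F (fun l => l.take (a + 1)) X (Y * Z) (mul_nonneg hY hZ)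
  · apply HX
    intro l hl
    obtain ⟨l', hl', rfl⟩ := Finset.mem_image.1 hl
    exact ⟨l', hl', rfl⟩
  intro p hp
  obtain ⟨l0, hl0, hp0⟩ := Finset.mem_image.1 hp
  have ha : a < l0.length := by have := hF l0 hl0; omega
  have hpa : p[a]? = some (l0[a]) := by
    rw [← hp0]
    simp [List.getElem?_take, ha]
  apply card_le_mul _ (fun l => (l.drop a).take (b - a + 1)) Y Z hZ
  · apply HY (l0[a])
    intro q hq
    obtain ⟨l', hl', rfl⟩ := Finset.mem_image.1 hq
    rw [Finset.mem_filter] at hl'
    refine ⟨?_, l', hl'.1, rfl⟩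
    have h1 : (l'.take (a + 1))[a]? = some (l0[a]) := by rw [← hpa, ← hl'.2]
    simpa [List.head?_eq_getElem?, List.getElem?_take, List.getElem?_drop] using h1
  intro q hq
  obtain ⟨l1, hl1, hq1⟩ := Finset.mem_image.1 hq
  rw [Finset.mem_filter] at hl1
  have hb : b < l1.length := by have := hF l1 hl1.1; omega
  have hqb : q[b - a]? = some (l1[b]) := by
    rw [← hq1]
    have e2 : a + (b - a) = b := by omega
    simp [List.getElem?_take, List.getElem?_drop, e2, hb]
  set F2 := (F.filter (fun x => x.take (a + 1) = p)).filter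
    (fun x => (x.drop a).take (b - a + 1) = q) with hF2
  have hinj : Set.InjOn (fun l : List α => l.drop b) (F2 : Set (List α)) := by
    intro l hl l' hl' h
    rw [hF2, Finset.coe_filter, Set.mem_setOf_eq, Finset.mem_filter] at hl hl'
    exact list_eq a b hab l l' (hl.1.2.trans hl'.1.2.symm) (hl.2.trans hl'.2.symm) h
  have hc : (F2.image (fun l : List α => l.drop b)).card = F2.card :=
    Finset.card_image_of_injOn hinj
  have : ((F2.image (fun l : List α => l.drop b)).card : ℝ) ≤ Z := by
    apply HZ (l1[b])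
    intro r hr
    obtain ⟨l', hl', rfl⟩ := Finset.mem_image.1 hr
    rw [hF2, Finset.mem_filter, Finset.mem_filter] at hl'
    refine ⟨?_, l', hl'.1.1, rfl⟩
    have h1 : ((l'.drop a).take (b - a + 1))[b - a]? = some (l1[b]) := by rw [← hqb, ← hl'.2]
    have e2 : a + (b - a) = b := by omega
    simpa [List.head?_eq_getElem?, List.getElem?_take, List.getElem?_drop, e2] using h1
  rw [hc] at this
  exact this

end Pool.Agent.Y908.QB
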