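import Pool.Agent.Y981.QB.Stm
import Pool.Agent.Y908.QB.SplitCore

set_option autoImplicit false

namespace Pool.Agent.Y908.QB

open Pool.Agent.Y981.QB

theorem split : S_SPLIT := by
  intro m a b X Y Z F hab hbm _ hY hZ hF HX HY HZ
  exact split_core m a b X Y Z F hab hbm hY hZ hF HX HY HZ

end Pool.Agent.Y908.QB
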